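import Pool.Agent.W560.EW.Stm

/-! Monotonicity of entrywise maps preserving real-rootedness. -/

set_option autoImplicit false

open Polynomial

namespace Pool.Agent.W585.EW

open Pool.Agent.W560.EW

/-- `c (1 + 2 s X + X^2) (1 + X)^(2 m)` -/
noncomputable def pol (c s : ℝ) (m : ℕ) : ℝ[X] :=
  C c * ((1 + X) ^ (2 * m) + C (2 * s) * (X ^ 1 * (1 + X) ^ (2 * m)) + X ^ 2 * (1 + X) ^ (2 * m))

theorem coeff_pol (c s : ℝ) (m k : ℕ) : (pol c s m).coeff k =
    c * (((2 * m).choose k : ℝ) + 2 * s * (if 1 ≤ k then ((2 * m).choose (k - 1) : ℝ) else 0) +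
      (if 2 ≤ k then ((2 * m).choose (k - 2) : ℝ) else 0)) := by
  unfold pol
  rw [coeff_C_mul, coeff_add, coeff_add, coeff_C_mul, coeff_X_pow_mul', coeff_X_pow_mul',
    coeff_one_add_X_pow, coeff_one_add_X_pow, coeff_one_add_X_pow]

theorem natDegree_pol (c s : ℝ) (m : ℕ) : (pol c s m).natDegree ≤ 2 * m + 2 := by
  rw [natDegree_le_iff_coeff_eq_zero]
  intro k hk
  rw [coeff_pol, Nat.choose_eq_zero_of_lt (by omega), Nat.choose_eq_zero_of_lt (by omega),
    Nat.choose_eq_zero_of_lt (by omega)]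
  simp

theorem coeff_pol_pos {c s : ℝ} (hc : 0 < c) (hs : 1 ≤ s) (m k : ℕ) (hk : k ≤ 2 * m + 2) :
    0 < (pol c s m).coeff k := by
  rw [coeff_pol]
  apply mul_pos hc
  have h0 : (0 : ℝ) ≤ ((2 * m).choose k : ℝ) := Nat.cast_nonneg _
  have h1 : (0 : ℝ) ≤ (if 1 ≤ k then ((2 * m).choose (k - 1) : ℝ) else 0) := by
    split_ifs
    · exact Nat.cast_nonneg _
    · exact le_rfl
  have h2 : (0 : ℝ) ≤ (if 2 ≤ k then ((2 * m).choose (k - 2) : ℝ) else 0) := by
    split_ifs
    · exact Nat.cast_nonneg _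
    · exact le_rfl
  have hs0 : 0 < 2 * s := by linarith
  have h1' := mul_nonneg hs0.le h1
  rcases Nat.lt_or_ge (2 * m) k with hk1 | hk1
  · rcases Nat.lt_or_ge (2 * m + 1) k with hk2 | hk2
    · have hk3 : k = 2 * m + 2 := by omega
      have h3 : (if 2 ≤ k then ((2 * m).choose (k - 2) : ℝ) else 0) = 1 := by
        rw [if_pos (by omega), hk3, Nat.add_sub_cancel, Nat.choose_self, Nat.cast_one]
      rw [h3]
      linarith
    · have hk3 : k = 2 * m + 1 := by omega
      have h3 : (if 1 ≤ k then ((2 * m).choose (k - 1) : ℝ) else 0) = 1 := by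
        rw [if_pos (by omega), hk3, Nat.add_sub_cancel, Nat.choose_self, Nat.cast_one]
      rw [h3]
      linarith
  · have h3 : (0 : ℝ) < ((2 * m).choose k : ℝ) := by
      exact_mod_cast Nat.choose_pos hk1
    linarith

theorem rr_pol {c s : ℝ} (hc : 0 < c) (hs : 1 ≤ s) (m : ℕ) : RR (pol c s m) := by
  intro z hz
  have h1 : aeval z (pol c s m) = (c : ℂ) * ((1 + 2 * (s : ℂ) * z + z ^ 2) * (1 + z) ^ (2 * m)) := by
    unfold pol
    simp only [map_mul, map_add, map_pow, aeval_C, aeval_X, map_one, Complex.coe_algebraMap,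
      map_ofNat]
    ring
  rw [h1] at hz
  have hc0 : (c : ℂ) ≠ 0 := by exact_mod_cast hc.ne'
  rcases mul_eq_zero.1 ((mul_eq_zero.1 hz).resolve_left hc0) with h2 | h2
  · have hre := congrArg Complex.re h2
    have him := congrArg Complex.im h2
    simp only [pow_two, Complex.add_re, Complex.add_im, Complex.mul_re, Complex.mul_im,
      Complex.one_re, Complex.one_im, Complex.re_ofNat, Complex.im_ofNat, Complex.ofReal_re,
      Complex.ofReal_im, Complex.zero_re, Complex.zero_im] at hre him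
    have him' : z.im * (s + z.re) = 0 := by linear_combination him / 2
    rcases mul_eq_zero.1 him' with h3 | h3
    · exact h3
    · have h4 : z.re = -s := by linarith
      rw [h4] at hre
      have h5 : z.im * z.im ≤ 0 := by nlinarith
      exact mul_self_eq_zero.1 (le_antisymm h5 (mul_self_nonneg _))
  · have h3 : 1 + z = 0 := eq_zero_of_pow_eq_zero' h2
    have h4 := congrArg Complex.im h3
    simpa using h4
where
  eq_zero_of_pow_eq_zero' {w : ℂ} {n : ℕ} (h : w ^ n = 0) : w = 0 := by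
    by_contra hw
    exact pow_ne_zero n hw h

theorem coeff_app (F : ℝ → ℝ) (p : ℝ[X]) (k : ℕ) :
    (app F p).coeff k = if k ≤ p.natDegree then F (p.coeff k) else 0 := by
  unfold app
  rw [finsetSum_coeff]
  simp only [coeff_monomial]
  rw [Finset.sum_ite_eq']
  simp only [Finset.mem_range, Nat.lt_succ_iff]

theorem choose_m {m : ℕ} : ((2 * m).choose (m + 1) : ℝ) * (m + 1) = ((2 * m).choose m : ℝ) * m := by
  have h := Nat.choose_succ_right_eq (2 * m) m
  have e : 2 * m - m = m := by omega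
  rw [e] at h
  exact_mod_cast h

theorem choose_m2 {m : ℕ} : ((2 * m).choose (m + 2) : ℝ) * (m + 2) =
    ((2 * m).choose (m + 1) : ℝ) * (m - 1) := by
  rcases m with _ | m
  · simp
  · have h := Nat.choose_succ_right_eq (2 * (m + 1)) (m + 1 + 1)
    have e : 2 * (m + 1) - (m + 1 + 1) = m := by omega
    rw [e] at h
    have h' : ((2 * (m + 1)).choose (m + 1 + 1 + 1) : ℝ) * ((m + 1 + 1 + 1 : ℕ) : ℝ) =
      ((2 * (m + 1)).choose (m + 1 + 1) : ℝ) * (m : ℝ) := by exact_mod_cast h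
    have e2 : m + 1 + 2 = m + 1 + 1 + 1 := rfl
    rw [e2]
    push_cast at h' ⊢
    linear_combination h'

theorem choose_params {r : ℝ} (hr : 1 < r) : ∃ (m : ℕ) (s : ℝ), 1 ≤ s ∧
    (2 * ((2 * m).choose (m + 1) : ℝ) + 2 * s * ((2 * m).choose m : ℝ)) =
      r * (((2 * m).choose (m + 2) : ℝ) + 2 * s * ((2 * m).choose (m + 1) : ℝ) +
        ((2 * m).choose m : ℝ)) := by
  classical
  have hex : ∃ m : ℕ, (m : ℝ) + 2 ≤ (m + 1) * r := by
    obtain ⟨n, hn⟩ := exists_nat_one_div_lt (sub_pos.2 hr)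
    refine ⟨n, ?_⟩
    have hn0 : (0 : ℝ) < n + 1 := by positivity
    rw [div_lt_iff₀ hn0] at hn
    nlinarith
  obtain ⟨m, hm1, hm2⟩ : ∃ m : ℕ, (m : ℝ) + 2 ≤ (m + 1) * r ∧ (m : ℝ) * r < m + 1 := by
    refine ⟨Nat.find hex, Nat.find_spec hex, ?_⟩
    rcases Nat.eq_zero_or_pos (Nat.find hex) with h0 | h0
    · rw [h0]; norm_num
    · have := Nat.find_min hex (m := Nat.find hex - 1) (by omega)
      push Not at this
      have e : ((Nat.find hex - 1 : ℕ) : ℝ) = (Nat.find hex : ℝ) - 1 := by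
        rw [Nat.cast_sub (by omega)]; simp
      rw [e] at this
      linarith
  obtain ⟨b0, hb0⟩ : ∃ b0 : ℝ, b0 = ((2 * m).choose m : ℝ) := ⟨_, rfl⟩
  obtain ⟨b1, hb1⟩ : ∃ b1 : ℝ, b1 = ((2 * m).choose (m + 1) : ℝ) := ⟨_, rfl⟩
  obtain ⟨b2, hb2⟩ : ∃ b2 : ℝ, b2 = ((2 * m).choose (m + 2) : ℝ) := ⟨_, rfl⟩
  have e1 : b1 * (m + 1) = b0 * m := by rw [hb1, hb0]; exact choose_m
  have e2 : b2 * (m + 2) = b1 * (m - 1) := by rw [hb1, hb2]; exact choose_m2
  have hb0p : 0 < b0 := by rw [hb0]; exact_mod_cast Nat.choose_pos (by omega)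
  have hm0 : (0 : ℝ) ≤ m := Nat.cast_nonneg _
  have hden : 0 < b0 - r * b1 := by
    have h1 : 0 < (b0 - r * b1) * (m + 1) := by
      have h2 : (b0 - r * b1) * (m + 1) = b0 * (m + 1 - m * r) := by
        linear_combination (-r) * e1
      rw [h2]
      exact mul_pos hb0p (by linarith)
    exact pos_of_mul_pos_of_pos_right h1 (by linarith)
  refine ⟨m, (r * (b2 + b0) - 2 * b1) / (2 * (b0 - r * b1)), ?_, ?_⟩
  · rw [le_div_iff₀ (by linarith), one_mul]
    -- r (b0 + 2 b1 + b2) ≥ 2 (b0 + b1)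
    have h3 : (b0 + 2 * b1 + b2) * (m + 2) = 2 * (b0 + b1) * (m + 1) := by
      have h4 : ((b0 + 2 * b1 + b2) * (m + 2) - 2 * (b0 + b1) * (m + 1)) * 1 = 0 := by
        linear_combination e2 + e1
      linarith
    have h5 : 0 < b0 + b1 := by
      have : 0 ≤ b1 := by rw [hb1]; exact Nat.cast_nonneg _
      linarith
    have h6 : 2 * (b0 + b1) * ((m + 1) * (m + 2)) ≤ (r * (b0 + 2 * b1 + b2)) * ((m + 1) * (m + 2)) := by
      have h7 : (r * (b0 + 2 * b1 + b2)) * ((m + 1) * (m + 2)) =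
          ((m + 1) * r) * (2 * (b0 + b1) * (m + 1)) := by rw [← h3]; ring
      rw [h7]
      have h8 : 0 ≤ 2 * (b0 + b1) * (m + 1) := by positivity
      nlinarith [mul_le_mul_of_nonneg_right hm1 h8]
    have h9 := le_of_mul_le_mul_right h6 (by positivity)
    linarith
  · rw [← hb0, ← hb1, ← hb2]
    have h10 : (r * (b2 + b0) - 2 * b1) / (2 * (b0 - r * b1)) * (2 * (b0 - r * b1)) =
        r * (b2 + b0) - 2 * b1 := div_mul_cancel₀ _ (by positivity)
    linear_combination h10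
where
  pos_of_mul_pos_of_pos_right {x y : ℝ} (h : 0 < x * y) (hy : 0 < y) : 0 < x :=
    (pos_iff_pos_of_mul_pos h).2 hy

theorem coeffs {c s : ℝ} (m : ℕ) :
    (pol c s m).coeff m = c * (((2 * m).choose (m + 2) : ℝ) + 2 * s * ((2 * m).choose (m + 1) : ℝ) +
        ((2 * m).choose m : ℝ)) ∧
    (pol c s m).coeff (m + 1) = c * (2 * ((2 * m).choose (m + 1) : ℝ) +
      2 * s * ((2 * m).choose m : ℝ)) ∧
    (pol c s m).coeff (m + 2) = c * (((2 * m).choose (m + 2) : ℝ) +
      2 * s * ((2 * m).choose (m + 1) : ℝ) + ((2 * m).choose m : ℝ)) := by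
  have h1 : (if 1 ≤ m then ((2 * m).choose (m - 1) : ℝ) else 0) =
      ((2 * m).choose (m + 1) : ℝ) := by
    split_ifs with h
    · rw [Nat.choose_symm_of_eq_add (by omega : 2 * m = (m - 1) + (m + 1))]
    · have : m = 0 := by omega
      subst this
      simp
  have h2 : (if 2 ≤ m then ((2 * m).choose (m - 2) : ℝ) else 0) =
      ((2 * m).choose (m + 2) : ℝ) := by
    split_ifs with h
    · rw [Nat.choose_symm_of_eq_add (by omega : 2 * m = (m - 2) + (m + 2))]
    · rw [Nat.choose_eq_zero_of_lt (by omega)]; simp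
  have h3 : (if 2 ≤ m + 1 then ((2 * m).choose (m + 1 - 2) : ℝ) else 0) =
      ((2 * m).choose (m + 1) : ℝ) := by
    rw [← h1]
    by_cases h : 1 ≤ m
    · rw [if_pos h, if_pos (by omega)]
      congr 2
    · rw [if_neg h, if_neg (by omega)]
  refine ⟨?_, ?_, ?_⟩
  · rw [coeff_pol, h1, h2]; ring
  · rw [coeff_pol, h3, if_pos (by omega), Nat.add_sub_cancel]; ring
  · rw [coeff_pol, if_pos (by omega), if_pos (by omega), Nat.add_sub_cancel]
    have : m + 2 - 1 = m + 1 := rfl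
    rw [this]

theorem mon (h : S_LC) : S_MON := by
  intro F hF hP a b ha hab
  rcases eq_or_lt_of_le hab with rfl | hlt
  · exact le_rfl
  have hr : 1 < b / a := by rwa [one_lt_div ha]
  obtain ⟨m, s, hs, hms⟩ := choose_params hr
  obtain ⟨S, hS⟩ : ∃ S : ℝ, S = ((2 * m).choose (m + 2) : ℝ) +
    2 * s * ((2 * m).choose (m + 1) : ℝ) + ((2 * m).choose m : ℝ) := ⟨_, rfl⟩
  have hS0 : 0 < S := by
    have h1 : (0 : ℝ) < ((2 * m).choose m : ℝ) := by exact_mod_cast Nat.choose_pos (by omega)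
    have h2 : (0 : ℝ) ≤ ((2 * m).choose (m + 2) : ℝ) := Nat.cast_nonneg _
    have h3 : (0 : ℝ) ≤ 2 * s * ((2 * m).choose (m + 1) : ℝ) :=
      mul_nonneg (by linarith) (Nat.cast_nonneg _)
    rw [hS]; linarith
  have hc : 0 < a / S := div_pos ha hS0
  obtain ⟨k1, k2, k3⟩ := coeffs (c := a / S) (s := s) m
  rw [← hS] at k1 k3 hms
  rw [hms] at k2
  have k1' : (pol (a / S) s m).coeff m = a := by rw [k1]; field_simp
  have k3' : (pol (a / S) s m).coeff (m + 2) = a := by rw [k3]; field_simp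
  have k2' : (pol (a / S) s m).coeff (m + 1) = b := by rw [k2]; field_simp
  have hpos : ∀ k ≤ (pol (a / S) s m).natDegree, 0 < (pol (a / S) s m).coeff k := fun k hk =>
    coeff_pol_pos hc hs m k (hk.trans (natDegree_pol _ _ _))
  have happ := hP (pol (a / S) s m) hpos (rr_pol hc hs m)
  have hd : m + 2 ≤ (pol (a / S) s m).natDegree :=
    le_natDegree_of_ne_zero (by rw [k3']; exact ha.ne')
  have hnn : ∀ k, 0 ≤ (app F (pol (a / S) s m)).coeff k := by
    intro k
    rw [coeff_app]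
    split_ifs
    · exact hF _
    · exact le_rfl
  have h1 := h (app F (pol (a / S) s m)) hnn happ m (m + 1) (by omega)
  rw [coeff_app, coeff_app, coeff_app, if_pos (by omega), if_pos (by omega), if_pos (by omega),
    k1', k2', k3'] at h1
  have h2 := hF a
  have h3 := hF b
  exact abs_le_of_mul_self_le h2 h3 h1
where
  abs_le_of_mul_self_le {x y : ℝ} (hx : 0 ≤ x) (hy : 0 ≤ y) (h : x * x ≤ y * y) : x ≤ y := by
    nlinarith

end Pool.Agent.W585.EW
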